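import Pool.Agent.Helper52.GPM.S

/-!
# Gilbert-Pollak, chapter MSTF: pocket
-/

namespace Pool.Agent.Helper7.GPM

open Relation Classical Pool.Agent.Helper18.GP Pool.Agent.Helper52.GPM

theorem eqv_lift {α : Type*} {r s : α → α → Prop} (h : ∀ x y, r x y → EqvGen s x y) {x y : α}
    (hxy : EqvGen r x y) : EqvGen s x y := by
  induction hxy with
  | rel x y hr => exact h x y hr
  | refl x => exact EqvGen.refl x
  | symm x y _ ih => exact EqvGen.symm _ _ ih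
  | trans x y z _ _ ih1 ih2 => exact EqvGen.trans _ _ _ ih1 ih2

theorem mod_stPocket (hB : mBd) (hT : mTransfer) (hA : stMAtt) : stPocket := by
  intro N V A F d hd hFA a ha b hb hab hAS
  set S := Arc V a b with hS
  set T := Arc V b a with hTd
  set F' : Fin N → Fin N → Prop :=
    fun x y => Fr F S x y ∨ ((x = a ∧ y = b) ∧ EqvGen (Fr F T) a b) with hF'
  have hSV : S ⊆ V := Arc_sub V a b
  have htr : ∀ v ∈ S, ∀ y ∈ S, EqvGen F v y → EqvGen F' v y :=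
    hT N V F F' hFA.FB a ha b hb hab (fun x y h => EqvGen.rel _ _ (Or.inl h))
      (fun h => EqvGen.rel _ _ (Or.inr ⟨⟨rfl, rfl⟩, h⟩))
  have hB' := hB N V a b ha hb hab
  refine ⟨F', ⟨hAS, ?_, ?_⟩, ?_⟩
  · rintro x y (⟨h, hx, hy⟩ | ⟨⟨rfl, rfl⟩, -⟩)
    · exact hB'.1 x y (hFA.FB x y h) hx hy
    · exact hB'.2.1
  · intro v hv
    obtain ⟨c, hc, hvc⟩ := hFA.cov v (hSV hv)
    exact ⟨c, hc, htr v hv c (hAS hc) hvc⟩
  · obtain ⟨m, hm, hmw⟩ := hA N S d F'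
    have hFT : ∀ x y, Fr F T x y → EqvGen (fun x y => (x, y) ∈ m ∨ F x y) x y :=
      fun x y h => EqvGen.rel _ _ (Or.inr h.1)
    have hlift : ∀ x y, ((x, y) ∈ m ∨ F' x y) → EqvGen (fun x y => (x, y) ∈ m ∨ F x y) x y := by
      rintro x y (h | h | ⟨⟨rfl, rfl⟩, h⟩)
      · exact EqvGen.rel _ _ (Or.inl h)
      · exact EqvGen.rel _ _ (Or.inr h.1)
      · exact eqv_lift hFT h
    have hFl : ∀ x y, F x y → EqvGen (fun x y => (x, y) ∈ m ∨ F x y) x y :=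
      fun x y h => EqvGen.rel _ _ (Or.inr h)
    have hmV : MConn V F m := by
      refine ⟨fun e he => ⟨hSV (hm.1 e he).1, hSV (hm.1 e he).2⟩, ?_⟩
      intro x hx y hy
      obtain ⟨c, hc, hxc⟩ := hFA.cov x hx
      obtain ⟨c', hc', hyc⟩ := hFA.cov y hy
      have h1 := eqv_lift hFl hxc
      have h2 := eqv_lift hFl hyc
      have h3 := eqv_lift hlift (hm.2 c (hAS hc) c' (hAS hc'))
      exact EqvGen.trans _ _ _ h1 (EqvGen.trans _ _ _ h3 (EqvGen.symm _ _ h2))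
    have h0 : ∀ a ∈ V, ∀ b ∈ V, 0 ≤ d a b := fun a ha b hb => (hd a ha b hb).1
    calc Mst V d F ≤ mw d m := Mst_le h0 hmV
      _ = Mst S d F' := hmw

end Pool.Agent.Helper7.GPM
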